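import Pool.Agent.Helper928.Nuc.Free

set_option autoImplicit false

/-! Submodules of free alternative algebras of infinite rank which are stable under permutations of
the generators. -/

namespace Pool.Agent.Y850.US

open Pool.Agent.Helper928.Nuc.Free

section general

variable {Φ : Type} [CommRing Φ] {A : Type} [NonUnitalNonAssocRing A] [Module Φ A]
  [IsScalarTower Φ A A] [SMulCommClass Φ A A]

/-- the largest nuclear ideal is stable under surjective endomorphisms -/
theorem U_inv (f : A →ₙₐ[Φ] A) (hf : Function.Surjective f) :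
    ∀ a ∈ Uideal Φ A, f a ∈ Uideal Φ A := by
  have h : Uideal Φ A ≤ (Uideal Φ A).comap (f : A →ₗ[Φ] A) := by
    unfold Uideal
    refine sSup_le fun I hI => ?_
    rw [← Submodule.map_le_iff_le_comap]
    refine le_sSup ⟨?_, ?_⟩
    · rintro a x ⟨y, hy, rfl⟩
      obtain ⟨b, rfl⟩ := hf a
      exact ⟨⟨b * y, (hI.1 b y hy).1, map_mul f b y⟩, ⟨y * b, (hI.1 b y hy).2, map_mul f y b⟩⟩
    · rintro x ⟨y, hy, rfl⟩ a b
      obtain ⟨a, rfl⟩ := hf a
      obtain ⟨b, rfl⟩ := hf b
      obtain ⟨h1, h2, h3⟩ := hI.2 hy a b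
      have e1 := congrArg f h1
      have e2 := congrArg f h2
      have e3 := congrArg f h3
      rw [map_sub, map_mul, map_mul, map_mul, map_mul, map_zero] at e1 e2 e3
      exact ⟨e1, e2, e3⟩
  intro a ha
  exact h ha

/-- the associator ideal is stable under endomorphisms -/
theorem D_inv (f : A →ₙₐ[Φ] A) : ∀ a ∈ Dideal Φ A, f a ∈ Dideal Φ A := by
  have h : Dideal Φ A ≤ (Dideal Φ A).comap (f : A →ₗ[Φ] A) := by
    have hid : IsIdeal Φ A (Dideal Φ A) := by
      intro a x hx
      unfold Dideal idealGen at *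
      simp only [Submodule.mem_sInf] at *
      exact ⟨fun I hI => (hI.1 a x (hx I hI)).1, fun I hI => (hI.1 a x (hx I hI)).2⟩
    refine sInf_le ⟨?_, ?_⟩
    · intro a x hx
      have hx' : f x ∈ Dideal Φ A := hx
      constructor
      · show f (a * x) ∈ Dideal Φ A
        rw [map_mul]
        exact (hid (f a) (f x) hx').1
      · show f (x * a) ∈ Dideal Φ A
        rw [map_mul]
        exact (hid (f a) (f x) hx').2
    · rintro s ⟨a, b, c, rfl⟩
      show f ((a * b) * c - a * (b * c)) ∈ Dideal Φ A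
      rw [map_sub, map_mul, map_mul, map_mul, map_mul]
      unfold Dideal idealGen
      simp only [Submodule.mem_sInf]
      exact fun I hI => hI.2 ⟨f a, f b, f c, rfl⟩
  intro a ha
  exact h ha

end general

variable {Φ : Type} [CommRing Φ] {X : Type}

/-- endomorphisms which agree on the generators of a finite set agree at a given element -/
theorem fin_supp (a : FreeAlt Φ X) : ∃ S : Finset X, ∀ f g : FreeAlt Φ X →ₙₐ[Φ] FreeAlt Φ X,
    (∀ x ∈ S, f (FreeAlt.gen x) = g (FreeAlt.gen x)) → f a = g a := by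
  classical
  obtain ⟨b, rfl⟩ := FreeAlt.mk_surj a
  have hmag : ∀ m : FreeMagma X, ∃ S : Finset X, ∀ f g : FreeAlt Φ X →ₙₐ[Φ] FreeAlt Φ X,
      (∀ x ∈ S, f (FreeAlt.gen x) = g (FreeAlt.gen x)) →
        f (FreeAlt.mk (MonoidAlgebra.single m (1 : Φ))) =
          g (FreeAlt.mk (MonoidAlgebra.single m (1 : Φ))) := by
    intro m
    induction m using FreeMagma.recOnMul with
    | ih1 x =>
      refine ⟨{x}, fun f g h => ?_⟩
      have e : (FreeAlt.mk (MonoidAlgebra.single (FreeMagma.of x) (1 : Φ)) : FreeAlt Φ X) =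
          FreeAlt.gen x := rfl
      rw [e]
      exact h x (Finset.mem_singleton_self x)
    | ih2 m m' h1 h2 =>
      obtain ⟨S, hS⟩ := h1
      obtain ⟨S', hS'⟩ := h2
      refine ⟨S ∪ S', fun f g h => ?_⟩
      have e : (MonoidAlgebra.single (m * m') (1 : Φ) : FN Φ X) =
          MonoidAlgebra.single m 1 * MonoidAlgebra.single m' 1 := by
        rw [MonoidAlgebra.single_mul_single, one_mul]
      rw [e, FreeAlt.mk_mul, map_mul, map_mul,
        hS f g fun x hx => h x (Finset.mem_union_left _ hx),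
        hS' f g fun x hx => h x (Finset.mem_union_right _ hx)]
  induction b using MonoidAlgebra.induction_linear with
  | zero => exact ⟨∅, fun f g _ => by rw [map_zero, map_zero, map_zero]⟩
  | add a b ha hb =>
    obtain ⟨S, hS⟩ := ha
    obtain ⟨S', hS'⟩ := hb
    refine ⟨S ∪ S', fun f g h => ?_⟩
    rw [map_add, map_add, map_add, hS f g fun x hx => h x (Finset.mem_union_left _ hx),
      hS' f g fun x hx => h x (Finset.mem_union_right _ hx)]
  | single m r =>
    obtain ⟨S, hS⟩ := hmag m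
    refine ⟨S, fun f g h => ?_⟩
    have e : (MonoidAlgebra.single m r : FN Φ X) = r • MonoidAlgebra.single m 1 := by
      rw [MonoidAlgebra.smul_single, smul_eq_mul, mul_one]
    rw [e, map_smul, map_smul, map_smul, hS f g h]

theorem exists_emb (X : Type) [Infinite X] : Nonempty (X × X ↪ X) := by
  rw [← Cardinal.le_def, Cardinal.mk_prod, Cardinal.lift_id]
  exact (Cardinal.mul_eq_self (Cardinal.aleph0_le_mk X)).le

/-- a submodule stable under the permutations of the generators has infinite rank -/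
theorem rank [Infinite X] {J : Submodule Φ (FreeAlt Φ X)}
    (hJ : ∀ f : FreeAlt Φ X →ₙₐ[Φ] FreeAlt Φ X, Function.Surjective f → ∀ a ∈ J, f a ∈ J)
    {k : FreeAlt Φ X} (hk : k ∈ J) (hk0 : k ≠ 0) :
    ∃ z : X → FreeAlt Φ X, (∀ x, z x ∈ J) ∧ (∀ x, z x ≠ 0) ∧
      ∀ c : X →₀ Φ, (c.sum fun x r => r • z x) = 0 → ∀ x, c x • z x = 0 := by
  classical
  have halt := FreeAlt.alternative (Φ := Φ) (X := X)
  obtain ⟨S, hS⟩ := fin_supp k
  obtain ⟨j⟩ := exists_emb X
  have hσ : ∀ i : X, ∃ σ : Equiv.Perm X, ∀ s : S, σ (s : X) = j (i, (s : X)) := fun i =>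
    Equiv.Perm.exists_extending_pair (fun s : S => (s : X)) (fun s : S => j (i, (s : X)))
      Subtype.val_injective (fun s t h => Subtype.ext (Prod.mk.inj (j.injective h)).2)
  choose σ hσ using hσ
  let P : Equiv.Perm X → (FreeAlt Φ X →ₙₐ[Φ] FreeAlt Φ X) := fun τ =>
    FreeAlt.lift halt (fun x => FreeAlt.gen (τ x))
  have hPg : ∀ τ x, P τ (FreeAlt.gen x) = FreeAlt.gen (τ x) := fun τ x =>
    FreeAlt.lift_gen halt _ x
  have hPP : ∀ τ t, P τ (P τ⁻¹ t) = t := by
    intro τ t
    have h : (P τ).comp (P τ⁻¹) = NonUnitalAlgHom.id Φ (FreeAlt Φ X) := by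
      apply FreeAlt.hom_ext
      intro x
      show P τ (P τ⁻¹ (FreeAlt.gen x)) = FreeAlt.gen x
      rw [hPg, hPg]
      exact congrArg FreeAlt.gen (τ.apply_symm_apply x)
    exact DFunLike.congr_fun h t
  have hsurj : ∀ τ, Function.Surjective (P τ) := fun τ t => ⟨_, hPP τ t⟩
  let Lf : X → X → FreeAlt Φ X := fun i y =>
    if h : ∃ x, j (i, x) = y then FreeAlt.gen h.choose else 0
  let L : X → (FreeAlt Φ X →ₙₐ[Φ] FreeAlt Φ X) := fun i => FreeAlt.lift halt (Lf i)
  have hLg : ∀ i y, L i (FreeAlt.gen y) = Lf i y := fun i y => FreeAlt.lift_gen halt _ y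
  have hLf : ∀ i x, Lf i (j (i, x)) = FreeAlt.gen x := by
    intro i x
    have h : ∃ x', j (i, x') = j (i, x) := ⟨x, rfl⟩
    show (if h : ∃ x', j (i, x') = j (i, x) then FreeAlt.gen h.choose else 0) = FreeAlt.gen x
    rw [dif_pos h]
    have h2 := j.injective h.choose_spec
    exact congrArg FreeAlt.gen (Prod.mk.inj h2).2
  have hLf0 : ∀ i i' x, i' ≠ i → Lf i (j (i', x)) = 0 := by
    intro i i' x hi
    refine dif_neg ?_
    rintro ⟨x', hx'⟩
    exact hi (Prod.mk.inj (j.injective hx')).1.symm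
  have hLP : ∀ i, L i (P (σ i) k) = k := by
    intro i
    have h := hS ((L i).comp (P (σ i))) (NonUnitalAlgHom.id Φ (FreeAlt Φ X)) (by
      intro x hx
      show L i (P (σ i) (FreeAlt.gen x)) = FreeAlt.gen x
      rw [hPg, hσ i ⟨x, hx⟩, hLg, hLf])
    exact h
  have hLP0 : ∀ i i', i' ≠ i → L i (P (σ i') k) = 0 := by
    intro i i' hi
    have h := hS ((L i).comp (P (σ i'))) 0 (by
      intro x hx
      show L i (P (σ i') (FreeAlt.gen x)) = 0
      rw [hPg, hσ i' ⟨x, hx⟩, hLg, hLf0 i i' x hi])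
    exact h
  refine ⟨fun i => P (σ i) k, fun i => hJ _ (hsurj _) k hk, fun i h => hk0 ?_, ?_⟩
  · rw [← hLP i]
    have h' : P (σ i) k = 0 := h
    rw [h', map_zero]
  · intro c hc i
    have h2 := congrArg (L i) hc
    rw [map_zero, Finsupp.sum, map_sum, Finset.sum_eq_single i] at h2
    · rw [map_smul, hLP] at h2
      show c i • P (σ i) k = 0
      rw [← map_smul, h2, map_zero]
    · intro i' _ hi'
      rw [map_smul, hLP0 i i' hi', smul_zero]
    · intro hi
      rw [Finsupp.notMem_support_iff.1 hi, zero_smul, map_zero]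

end Pool.Agent.Y850.US
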